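import Pool.Agent.H59.LIN.Targets

/-!
# `MP_559314_gt`, board `lin_modules`, row PAV
-/

set_option autoImplicit false

open Finset
open Polynomial hiding eta flt

namespace Pool.Agent.H70.LIN

open Pool.Agent.H59.LIN

/-! ### the polynomials -/

theorem coeff_X2 (g : ℤ[X]) (j : ℕ) : ((X ^ 2 - 1) * g).coeff j =
    (if 2 ≤ j then g.coeff (j - 2) else 0) - g.coeff j := by
  rw [sub_mul, one_mul, coeff_sub, coeff_X_pow_mul']

theorem tel (g : ℤ[X]) : ∀ n : ℕ,
    ∑ l ∈ range (n / 2 + 1), ((X ^ 2 - 1) * g).coeff (n - 2 * l) = - g.coeff n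
  | 0 => by
      rw [Nat.zero_div, zero_add, Finset.sum_range_one, coeff_X2]
      simp
  | 1 => by
      have h : 1 / 2 + 1 = 1 := by norm_num
      rw [h, Finset.sum_range_one, coeff_X2]
      simp
  | n + 2 => by
      have h : (n + 2) / 2 + 1 = (n / 2 + 1) + 1 := by omega
      rw [h, Finset.sum_range_succ']
      have h1 : ∀ l ∈ range (n / 2 + 1), ((X ^ 2 - 1) * g).coeff (n + 2 - 2 * (l + 1)) =
          ((X ^ 2 - 1) * g).coeff (n - 2 * l) := by
        intro l _
        have : n + 2 - 2 * (l + 1) = n - 2 * l := by omega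
        rw [this]
      rw [Finset.sum_congr rfl h1, tel g n, mul_zero, Nat.sub_zero, coeff_X2,
        if_pos (by omega), Nat.add_sub_cancel]
      ring

/-- the second factor of `hp b` -/
noncomputable def gg (b : ℕ × ℕ) : ℤ[X] :=
  if b.2 = 0 then X ^ b.1
    else X ^ (b.1 - 1) * ((if Odd (mb b - (b.1 - 1) - 3) then 1 else 0) +
      al (mb b - (b.1 - 1) - 3))

theorem hp_eq (b : ℕ × ℕ) : hp b = (X ^ 2 - 1) * gg b := rfl

theorem al_even (t : ℕ) : al (2 * (t + 1)) = X * al (2 * t + 1) := by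
  have h : 2 * (t + 1) = (2 * t + 1) + 1 := by ring
  rw [h, al, if_neg (by simp), add_zero]

theorem al_odd (t : ℕ) : (al (2 * t + 1)).coeff 0 = 1 := by
  rw [al, if_pos (by simp)]
  simp

theorem gg_pos (b : ℕ × ℕ) (h : 1 ≤ b.1) : ∃ g : ℤ[X], gg b = X ^ b.1 * g ∧ g.coeff 0 = 1 := by
  obtain ⟨i, t⟩ := b
  change 1 ≤ i at h
  rcases t with _ | t
  · refine ⟨1, ?_, by simp⟩
    unfold gg
    rw [if_pos rfl, mul_one]
  · refine ⟨al (2 * t + 1), ?_, al_odd t⟩
    have h1 : mb (i, t + 1) - (i - 1) - 3 = 2 * (t + 1) := by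
      unfold mb
      change i + 2 * (t + 1) + 2 - (i - 1) - 3 = _
      omega
    unfold gg
    rw [if_neg (by simp)]
    change X ^ (i - 1) * ((if Odd (mb (i, t + 1) - (i - 1) - 3) then 1 else 0) +
      al (mb (i, t + 1) - (i - 1) - 3)) = X ^ i * _
    rw [h1, if_neg (by simp), zero_add, al_even, ← mul_assoc, ← pow_succ]
    congr 2
    omega

theorem gg_zero (t : ℕ) : (gg (0, t)).coeff 0 = if t = 0 then 1 else 2 := by
  rcases t with _ | t
  · unfold gg
    rw [if_pos rfl, if_pos rfl]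
    simp
  · have h1 : mb (0, t + 1) - (0 - 1) - 3 = 2 * t + 1 := by
      unfold mb
      change 0 + 2 * (t + 1) + 2 - (0 - 1) - 3 = _
      omega
    unfold gg
    rw [if_neg (show ¬ ((0, t + 1) : ℕ × ℕ).2 = 0 from Nat.succ_ne_zero t)]
    change (X ^ (0 - 1) * ((if Odd (mb (0, t + 1) - (0 - 1) - 3) then 1 else 0) +
      al (mb (0, t + 1) - (0 - 1) - 3))).coeff 0 = (if t + 1 = 0 then 1 else 2)
    rw [h1, if_pos (show Odd (2 * t + 1) from odd_two_mul_add_one t), Nat.zero_sub, pow_zero,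
      one_mul, coeff_add, al_odd, if_neg (Nat.succ_ne_zero t), coeff_one_zero]
    norm_num

theorem hp_zero (b : ℕ × ℕ) : (hp b).coeff 0 = - (gg b).coeff 0 := by
  rw [hp_eq, coeff_X2]
  simp

theorem gg_lt (b : ℕ × ℕ) (j : ℕ) (h : j < b.1) : (gg b).coeff j = 0 := by
  obtain ⟨g, hg, -⟩ := gg_pos b (by omega)
  rw [hg, coeff_X_pow_mul', if_neg (by omega)]

/-! ### evaluation of set functions -/

/-- the value at `A` -/
def evA {α K : Type} [DecidableEq α] [CommRing K] (A : Finset α) : SF α K →+ K where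
  toFun f := f A
  map_zero' := rfl
  map_add' _ _ := rfl

theorem sum_ev {α K ι : Type} [DecidableEq α] [CommRing K] (A : Finset α) (s : Finset ι)
    (f : ι → SF α K) : (∑ l ∈ s, f l) A = ∑ l ∈ s, f l A :=
  map_sum (evA A) f s

theorem sub_ev {α K : Type} [DecidableEq α] [CommRing K] (A : Finset α) (f g : SF α K) :
    (f - g) A = f A - g A :=
  map_sub (evA A) f g

section

variable {b : ℕ × ℕ} {x : CD (mb b) → ℤ}

theorem sum_eta (hHVA : T_HVA) (hx : Alt x (PL b)) (m j : ℕ) :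
    ∑ D, x D • eta D m j univ = if mb b = m then ((hp b).coeff j : ℚ) else 0 := by
  have h0 : ∀ D : CD (mb b), eta D m j univ =
      if mb b = m then (((hh D univ).coeff j : ℤ) : ℚ) else 0 := by
    intro D
    unfold Pool.Agent.H59.LIN.eta
    rw [Finset.card_univ, Fintype.card_fin]
  rw [Finset.sum_congr rfl fun D _ => congrArg (fun z => x D • z) (h0 D)]
  split_ifs with h
  · rw [← hHVA b x hx, finset_sum_coeff]
    push_cast
    refine Finset.sum_congr rfl fun D _ => ?_
    rw [coeff_smul, zsmul_eq_mul, smul_eq_mul]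
    push_cast
    rfl
  · simp

theorem sum_pow (hPRS : T_PRS) (hPLV : T_PLV) (hCON : T_CON) (hGEX : T_GEX)
    (hx : Alt x (PL b)) (t : ℕ) (ht : 1 ≤ t) :
    ∑ D, x D • ((eta D 2 0) ^ (t + 1)) univ = 0 := by
  obtain ⟨G, hG0, hG, -⟩ := hGEX (mb b) (0, 0)
  obtain ⟨-, -, hconn, hlab⟩ := hPLV b
  have h1 := (hCON (mb b) 1 (t + 1) (fun _ => 0) (fun _ => PL b) (fun _ => G)
    (fun i _ _ => Subsingleton.elim _ _) (fun c => by
      obtain ⟨a, a', hm, -, ha⟩ := hlab c
      rcases ha with ha | ha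
      · refine ⟨a.2, ?_⟩
        rw [← ha]
        unfold Pool.Agent.H59.LIN.flt
        rw [List.mem_flatMap]
        exact ⟨_, hm, by simp [Pl.fl]⟩
      · refine ⟨a'.2, ?_⟩
        rw [← ha]
        unfold Pool.Agent.H59.LIN.flt
        rw [List.mem_flatMap]
        exact ⟨_, hm, by simp [Pl.fl]⟩) (fun _ => hconn) (fun _ => hG0)).1 (by omega)
  have h2 : (List.finRange 1).flatMap (fun _ => PL b) = PL b := by
    simp [List.finRange_succ]
  rw [h2, ← hx ℚ (prw fun _ : Fin (t + 1) => G)] at h1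
  rw [← h1]
  refine Finset.sum_congr rfl fun D _ => ?_
  congr 1
  have h3 : eta D 2 0 = phi D (0, 0) := by
    unfold phi
    rw [if_pos rfl, if_pos rfl]
  have h4 : (eta D 2 0) ^ (t + 1) = ∏ _p : Fin (t + 1), phi D (0, 0) := by
    rw [h3, Finset.prod_const, Finset.card_univ, Fintype.card_fin]
  rw [h4, hPRS (mb b) ℚ (t + 1) fun _ => phi D (0, 0)]
  unfold prw
  refine Finset.sum_congr rfl fun κ _ => Finset.prod_congr rfl fun p _ => ?_
  rw [hG]
  congr 1
  unfold sub
  refine List.filter_congr fun a _ => ?_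
  unfold fbr
  simp

/-- the pairing with the basic symbol -/
theorem sum_phi (hPRS : T_PRS) (hPLV : T_PLV) (hCON : T_CON) (hGEX : T_GEX) (hHVA : T_HVA)
    (hx : Alt x (PL b)) (b' : ℕ × ℕ) : ∑ D, x D • phi D b' univ =
    if mb b = mb b' then
      (if b'.1 = 0 then (if b'.2 = 0 then ((hp b).coeff 0 : ℚ) else (1 / 2) * (hp b).coeff 0)
        else - ((gg b).coeff b'.1 : ℚ)) else 0 := by
  obtain ⟨i, t⟩ := b'
  by_cases hi : i = 0
  · subst hi
    by_cases ht : t = 0
    · subst ht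
      have h1 : ∀ D : CD (mb b), phi D (0, 0) = eta D 2 0 := by
        intro D
        unfold phi
        rw [if_pos rfl, if_pos rfl]
      rw [Finset.sum_congr rfl fun D _ => congrArg (fun z : SF (Fin (mb b)) ℚ => x D • z univ)
        (h1 D), sum_eta hHVA hx]
      have h2 : mb (0, 0) = 2 := rfl
      rw [h2, if_pos rfl, if_pos rfl]
    · have h1 : ∀ D : CD (mb b), phi D (0, t) univ = (1 / 2) * (eta D (2 * t + 2) 0 univ -
          ((t + 1).factorial : ℚ)⁻¹ * ((eta D 2 0) ^ (t + 1)) univ) := by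
        intro D
        unfold phi
        rw [if_pos rfl, if_neg ht, SF.smul_def', sub_ev, SF.smul_def']
      have h2 : mb (0, t) = 2 * t + 2 := by
        unfold mb
        change 0 + 2 * t + 2 = _
        ring
      have h3 : ∑ D : CD (mb b), x D • phi D (0, t) univ =
          (1 / 2) * (∑ D : CD (mb b), x D • eta D (2 * t + 2) 0 univ) -
          (1 / 2) * ((t + 1).factorial : ℚ)⁻¹ *
            ∑ D : CD (mb b), x D • ((eta D 2 0) ^ (t + 1)) univ := by
        rw [Finset.mul_sum, Finset.mul_sum, ← Finset.sum_sub_distrib]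
        refine Finset.sum_congr rfl fun D _ => ?_
        rw [h1 D]
        simp only [zsmul_eq_mul]
        ring
      rw [h3, sum_pow hPRS hPLV hCON hGEX hx t (by omega), mul_zero, sub_zero, sum_eta hHVA hx, h2,
        if_pos rfl, if_neg ht]
      split_ifs
      · rfl
      · rw [mul_zero]
  · have h1 : ∀ D : CD (mb b), phi D (i, t) univ =
        ∑ l ∈ range (i / 2 + 1), eta D (mb (i, t)) (i - 2 * l) univ := by
      intro D
      unfold phi
      rw [if_neg hi, sum_ev]
    have h2 : ∑ D : CD (mb b), x D • phi D (i, t) univ = ∑ l ∈ range (i / 2 + 1),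
        ∑ D : CD (mb b), x D • eta D (mb (i, t)) (i - 2 * l) univ := by
      rw [Finset.sum_comm]
      refine Finset.sum_congr rfl fun D _ => ?_
      rw [h1 D, Finset.smul_sum]
    rw [h2, Finset.sum_congr rfl fun l _ => sum_eta hHVA hx (mb (i, t)) (i - 2 * l)]
    split_ifs with h
    · rw [← Int.cast_sum, hp_eq, tel]
      push_cast
      rfl
    · rw [Finset.sum_const_zero]

end

theorem pf_PAV (hPRS : Pool.Agent.H59.LIN.T_PRS) (hPLV : Pool.Agent.H59.LIN.T_PLV)
    (hCON : Pool.Agent.H59.LIN.T_CON) (hGEX : Pool.Agent.H59.LIN.T_GEX)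
    (hHVA : Pool.Agent.H59.LIN.T_HVA) : Pool.Agent.H59.LIN.T_PAV := by
  intro b b' x hx
  rw [sum_phi hPRS hPLV hCON hGEX hHVA hx b']
  refine ⟨fun h => ?_, fun h => ?_, fun h => ?_⟩
  · rw [if_neg fun h1 => h h1.symm]
  · have h0 : (hp b).coeff 0 = 0 := by
      rw [hp_zero, gg_lt b 0 (by omega), neg_zero]
    have h1 : (gg b).coeff b'.1 = 0 := gg_lt b _ h
    rw [h0, h1]
    simp
  · subst h
    rw [if_pos rfl]
    obtain ⟨i, t⟩ := b'
    by_cases hi : i = 0
    · subst hi
      rw [if_pos rfl, hp_zero, gg_zero]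
      split_ifs <;> norm_num
    · rw [if_neg hi]
      obtain ⟨g, hg, hg0⟩ := gg_pos (i, t) (by change 1 ≤ i; omega)
      rw [hg]
      change -((((X : ℤ[X]) ^ i * g).coeff i : ℤ) : ℚ) = -1
      rw [coeff_X_pow_mul', if_pos le_rfl, Nat.sub_self, hg0]
      norm_num

end Pool.Agent.H70.LIN
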